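import Pool.Agent.Helper73.RT.Defs
import Pool.Agent.Helper23.RT.ChooseMul

/-!
Project RT, module B1: the random map.
-/

set_option autoImplicit false

open Finset

namespace Pool.Agent.Helper73.RT

/-- union bound for sets of functions -/
private theorem h83_union {α β : Type} [Finite α] (s : Finset β) (A : β → Set α) (K : ℝ)
    (hK : ∀ b ∈ s, ((A b).ncard : ℝ) ≤ K) :
    ({x | ∃ b ∈ s, x ∈ A b}.ncard : ℝ) ≤ s.card * K := by
  classical
  induction s using Finset.induction_on with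
  | empty => simp
  | insert a s ha ih =>
    have h1 : {x | ∃ b ∈ insert a s, x ∈ A b} = A a ∪ {x | ∃ b ∈ s, x ∈ A b} := by
      ext x
      simp
    rw [h1, Finset.card_insert_of_notMem ha]
    have h2 := Set.ncard_union_le (A a) {x | ∃ b ∈ s, x ∈ A b}
    have h3 := hK a (Finset.mem_insert_self a s)
    have h4 := ih fun b hb => hK b (Finset.mem_insert_of_mem hb)
    have h5 : ((A a ∪ {x | ∃ b ∈ s, x ∈ A b}).ncard : ℝ) ≤
        (A a).ncard + ({x | ∃ b ∈ s, x ∈ A b}.ncard : ℝ) := by exact_mod_cast h2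
    push_cast
    linarith

/-- the functions which map a given set to `J` -/
private theorem h83_maps {n N : ℕ} (hN : 0 < N) (D : Finset (Fin n)) (J : Finset (Fin N)) :
    ({f : Fin n → Fin N | ∀ i ∈ D, f i ∈ J}.ncard : ℝ) =
      ((J.card : ℝ) / N) ^ D.card * (N : ℝ) ^ n := by
  classical
  have hN0 : (N : ℝ) ≠ 0 := by exact_mod_cast hN.ne'
  have h1 : {f : Fin n → Fin N | ∀ i ∈ D, f i ∈ J} =
      ↑(Fintype.piFinset fun i : Fin n => if i ∈ D then J else Finset.univ) := by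
    ext f
    simp only [Set.mem_ofPred_eq, Finset.mem_coe, Fintype.mem_piFinset]
    refine forall_congr' fun i => ?_
    by_cases hi : i ∈ D <;> simp [hi]
  rw [h1, Set.ncard_coe_finset, Fintype.card_piFinset]
  push_cast
  have h2 : ∀ i : Fin n, ((if i ∈ D then J else Finset.univ : Finset (Fin N)).card : ℝ) =
      (if i ∈ D then (J.card : ℝ) / N else 1) * N := by
    intro i
    by_cases hi : i ∈ D
    · rw [if_pos hi, if_pos hi, div_mul_cancel₀ _ hN0]
    · rw [if_neg hi, if_neg hi, Finset.card_univ, Fintype.card_fin, one_mul]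
  rw [Finset.prod_congr rfl fun i _ => h2 i, Finset.prod_mul_distrib, Finset.prod_const,
    Finset.card_univ, Fintype.card_fin, Finset.prod_ite_mem, Finset.univ_inter,
    Finset.prod_const]

/-- the functions which map at least `T` elements of `S` to `J` -/
private theorem h83_one {n N : ℕ} (hN : 0 < N) (S : Finset (Fin n)) (J : Finset (Fin N)) (T : ℕ) :
    ({f : Fin n → Fin N | T ≤ (S.filter fun v => f v ∈ J).card}.ncard : ℝ) ≤
      (S.card.choose T : ℝ) * ((J.card : ℝ) / N) ^ T * (N : ℝ) ^ n := by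
  have hsub : {f : Fin n → Fin N | T ≤ (S.filter fun v => f v ∈ J).card} ⊆
      {f : Fin n → Fin N | ∃ D ∈ S.powersetCard T, f ∈ {f : Fin n → Fin N | ∀ i ∈ D, f i ∈ J}} := by
    intro f hf
    obtain ⟨D, hD, hcard⟩ := Finset.exists_subset_card_eq hf
    refine ⟨D, Finset.mem_powersetCard.2 ⟨hD.trans (Finset.filter_subset _ _), hcard⟩, ?_⟩
    intro i hi
    exact (Finset.mem_filter.1 (hD hi)).2
  have h1 := Set.ncard_le_ncard hsub (Set.toFinite _)
  have h2 := h83_union (S.powersetCard T)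
    (fun D => {f : Fin n → Fin N | ∀ i ∈ D, f i ∈ J}) (((J.card : ℝ) / N) ^ T * (N : ℝ) ^ n)
    (fun D hD => by rw [h83_maps hN, (Finset.mem_powersetCard.1 hD).2])
  rw [Finset.card_powersetCard, ← mul_assoc] at h2
  exact le_trans (by exact_mod_cast h1) h2

/-- `t < 2 ^ ell t` -/
private theorem h83_lt_ell (t : ℕ) : t < 2 ^ ell t := Nat.lt_pow_succ_log_self (by norm_num) t

private theorem h83_choose_le {t a : ℕ} :
    (((t ^ 40).choose a : ℕ) : ℝ) ≤ (2 : ℝ) ^ (40 * ell t * a) := by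
  have h1 : (t ^ 40).choose a ≤ (t ^ 40) ^ a := Nat.choose_le_pow _ _
  have h2 : (t ^ 40) ^ a ≤ ((2 ^ ell t) ^ 40) ^ a :=
    Nat.pow_le_pow_left (Nat.pow_le_pow_left (h83_lt_ell t).le 40) a
  have h3 : ((2 ^ ell t) ^ 40) ^ a = 2 ^ (40 * ell t * a) := by
    rw [← pow_mul, ← pow_mul]
    congr 1
    ring
  exact_mod_cast (h1.trans h2).trans h3.le

private theorem h83_exp_small {x : ℝ} (hx : 1 ≤ x) : Real.exp 1 / (100 * x) ≤ 1 / 32 := by
  have h := Real.exp_one_lt_d9
  rw [div_le_div_iff₀ (by positivity) (by norm_num)]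
  nlinarith

/-- the main estimate -/
private theorem h83_bound {M T c : ℕ} {p x : ℝ} (hT : 0 < T) (hp : 0 ≤ p)
    (hx : 1 ≤ x) (hMp : (M : ℝ) * p * (100 * x) ≤ T) (hc : c + 2 ≤ 5 * T) {K : ℝ}
    (hK : K ≤ (2 : ℝ) ^ c) :
    K * ((M.choose T : ℝ) * p ^ T) ≤ 1 / 4 := by
  have h1 := choose_mul_pow_le M T hT p hp
  have hT0 : (0 : ℝ) < T := by exact_mod_cast hT
  have h2 : Real.exp 1 * M * p / T ≤ 1 / 32 := by
    refine le_trans ?_ (h83_exp_small hx)
    rw [div_le_div_iff₀ hT0 (by positivity)]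
    have := mul_le_mul_of_nonneg_left hMp (Real.exp_pos 1).le
    linarith
  have h3 : (M.choose T : ℝ) * p ^ T ≤ (1 / 32 : ℝ) ^ T :=
    h1.trans (pow_le_pow_left₀ (by positivity) h2 T)
  have h4 : (1 / 32 : ℝ) ^ T = (1 / 2 : ℝ) ^ (5 * T) := by
    rw [pow_mul]
    norm_num
  have h5 : (1 / 2 : ℝ) ^ (5 * T) ≤ (1 / 2 : ℝ) ^ (c + 2) :=
    pow_le_pow_of_le_one (by norm_num) (by norm_num) hc
  have h6 : (0 : ℝ) ≤ (M.choose T : ℝ) * p ^ T := by positivity
  calc K * ((M.choose T : ℝ) * p ^ T) ≤ 2 ^ c * ((M.choose T : ℝ) * p ^ T) :=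
        mul_le_mul_of_nonneg_right hK h6
    _ ≤ 2 ^ c * (1 / 2 : ℝ) ^ (c + 2) := by
        refine mul_le_mul_of_nonneg_left ?_ (by positivity)
        exact h3.trans (h4.le.trans h5)
    _ = 1 / 4 := by
        rw [pow_add, ← mul_assoc, ← mul_pow]
        norm_num

private theorem h83_ell_pos (t : ℕ) : 1 ≤ ell t := by unfold ell; omega

private theorem h83_ell_le {t : ℕ} (ht : 10 ≤ t) : ell t ≤ t := by
  unfold ell
  have := Nat.log_lt_self 2 (show t ≠ 0 by omega)
  omega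

private theorem h83_aT_le {t : ℕ} (ht : 10 ≤ t) : aT t ≤ t ^ 40 := by
  unfold aT
  have h1 := h83_ell_le ht
  have h2 : 43200 ≤ t ^ 19 := le_trans (by norm_num) (Nat.pow_le_pow_left ht 19)
  calc 43200 * ell t * t ^ 20 ≤ t ^ 19 * t * t ^ 20 := by gcongr
    _ = t ^ 40 := by ring

private theorem h83_bT_le {t : ℕ} (ht : 10 ≤ t) : bT t ≤ t ^ 40 := by
  unfold bT
  have h1 := h83_ell_le ht
  have h2 : 720 ≤ t ^ 20 := le_trans (by norm_num) (Nat.pow_le_pow_left ht 20)
  calc 720 * ell t * t ^ 19 ≤ t ^ 20 * t * t ^ 19 := by gcongr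
    _ = t ^ 40 := by ring

/-- RT-B1. The random map (needs A1, A2). -/
theorem pi_exists (t H n : ℕ) (ht : 10 ≤ t) (hH : 1 ≤ H) (hn : n ≤ H * t ^ 40)
    (Sf : Finset (Finset (Fin n))) (hSf : Sf.card ≤ 2 ^ t) (hS : ∀ S ∈ Sf, S.card ≤ t ^ 40) :
    ∃ π : Fin n → Fin (t ^ 40),
      (∀ S ∈ Sf, ∀ J : Finset (Fin (t ^ 40)), J.card ≤ aT t →
        (S.filter fun v => π v ∈ J).card < q1T t) ∧
      (∀ J : Finset (Fin (t ^ 40)), J.card ≤ bT t →
        (univ.filter fun v => π v ∈ J).card < q2T t H) := by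
  by_contra hcon
  push Not at hcon
  have ht0 : 0 < t := by omega
  have hN : 0 < t ^ 40 := pow_pos ht0 40
  have hNR : (0 : ℝ) < ((t ^ 40 : ℕ) : ℝ) := by exact_mod_cast hN
  have hℓ := h83_ell_pos t
  have hℓR : (1 : ℝ) ≤ ell t := by exact_mod_cast hℓ
  have hat : t ≤ aT t := by
    unfold aT
    have h1 : t ^ 1 ≤ t ^ 20 := Nat.pow_le_pow_right ht0 (by norm_num)
    calc t = 1 * t ^ 1 := by ring
      _ ≤ (43200 * ell t) * t ^ 20 := Nat.mul_le_mul (by omega) h1
  have hbpos : 1 ≤ bT t := by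
    unfold bT
    exact Nat.mul_pos (by omega) (pow_pos ht0 19)
  -- the two bad sets
  have hbad1 : ({f : Fin n → Fin (t ^ 40) | ∃ b ∈ Sf ×ˢ (Finset.univ.powersetCard (aT t)),
      f ∈ {f : Fin n → Fin (t ^ 40) | q1T t ≤ (b.1.filter fun v => f v ∈ b.2).card}}.ncard : ℝ) ≤
      1 / 4 * ((t ^ 40 : ℕ) : ℝ) ^ n := by
    have hq1 : q1T t = 100 * ell t * aT t := by unfold q1T aT; ring
    have hK : ∀ b ∈ Sf ×ˢ ((Finset.univ : Finset (Fin (t ^ 40))).powersetCard (aT t)),
        (({f : Fin n → Fin (t ^ 40) | q1T t ≤ (b.1.filter fun v => f v ∈ b.2).card}.ncard : ℕ) : ℝ)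
          ≤ ((t ^ 40).choose (q1T t) : ℝ) * ((aT t : ℝ) / ((t ^ 40 : ℕ) : ℝ)) ^ (q1T t) *
            ((t ^ 40 : ℕ) : ℝ) ^ n := by
      rintro ⟨S, J⟩ hb
      obtain ⟨hb1, hb2⟩ := Finset.mem_product.1 hb
      have hJ : J.card = aT t := (Finset.mem_powersetCard.1 hb2).2
      have h1 := h83_one hN S J (q1T t)
      rw [hJ] at h1
      refine h1.trans ?_
      refine mul_le_mul_of_nonneg_right (mul_le_mul_of_nonneg_right ?_ (by positivity))
        (by positivity)
      exact_mod_cast Nat.choose_le_choose _ (hS S hb1)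
    refine (h83_union _ _ _ hK).trans ?_
    rw [Finset.card_product, Finset.card_powersetCard, Finset.card_univ, Fintype.card_fin]
    rw [← mul_assoc]
    refine mul_le_mul_of_nonneg_right ?_ (by positivity)
    refine h83_bound (x := (ell t : ℝ)) (c := 41 * ell t * aT t) ?_ (by positivity) hℓR
      ?_ ?_ ?_
    · rw [hq1]; exact Nat.mul_pos (by omega) (by omega)
    · rw [hq1]
      push_cast
      have : ((t : ℝ) ^ 40) ≠ 0 := by positivity
      field_simp
      exact le_rfl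
    · rw [hq1]
      have : 1 ≤ ell t * aT t := Nat.mul_pos (by omega) (by omega)
      nlinarith
    · push_cast
      have h1 : ((Sf.card : ℕ) : ℝ) ≤ (2 : ℝ) ^ (ell t * aT t) := by
        have h2 : Sf.card ≤ 2 ^ (ell t * aT t) := by
          refine hSf.trans (Nat.pow_le_pow_right (by norm_num) ?_)
          calc t ≤ aT t := hat
            _ = 1 * aT t := by ring
            _ ≤ ell t * aT t := Nat.mul_le_mul_right _ hℓ
        exact_mod_cast h2
      have h3 := h83_choose_le (t := t) (a := aT t)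
      calc (Sf.card : ℝ) * ((t ^ 40).choose (aT t) : ℝ) ≤
          (2 : ℝ) ^ (ell t * aT t) * (2 : ℝ) ^ (40 * ell t * aT t) :=
            mul_le_mul h1 h3 (by positivity) (by positivity)
        _ = (2 : ℝ) ^ (41 * ell t * aT t) := by
            rw [← pow_add]
            congr 1
            ring
  have hbad2 : ({f : Fin n → Fin (t ^ 40) | ∃ J ∈ (Finset.univ.powersetCard (bT t)),
      f ∈ {f : Fin n → Fin (t ^ 40) |
        q2T t H ≤ ((univ : Finset (Fin n)).filter fun v => f v ∈ J).card}}.ncard : ℝ) ≤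
      1 / 4 * ((t ^ 40 : ℕ) : ℝ) ^ n := by
    have hq2 : q2T t H = 6000 * ell t * bT t * H := by unfold q2T bT; ring
    have hK : ∀ J ∈ ((Finset.univ : Finset (Fin (t ^ 40))).powersetCard (bT t)),
        (({f : Fin n → Fin (t ^ 40) |
          q2T t H ≤ ((univ : Finset (Fin n)).filter fun v => f v ∈ J).card}.ncard : ℕ) : ℝ)
          ≤ (n.choose (q2T t H) : ℝ) * ((bT t : ℝ) / ((t ^ 40 : ℕ) : ℝ)) ^ (q2T t H) *
            ((t ^ 40 : ℕ) : ℝ) ^ n := by
      intro J hJ
      have hJ : J.card = bT t := (Finset.mem_powersetCard.1 hJ).2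
      have h1 := h83_one hN (univ : Finset (Fin n)) J (q2T t H)
      rw [hJ, Finset.card_univ, Fintype.card_fin] at h1
      exact h1
    refine (h83_union _ _ _ hK).trans ?_
    rw [Finset.card_powersetCard, Finset.card_univ, Fintype.card_fin]
    rw [← mul_assoc]
    refine mul_le_mul_of_nonneg_right ?_ (by positivity)
    refine h83_bound (x := (ell t : ℝ)) (c := 40 * ell t * bT t) ?_ (by positivity) hℓR
      ?_ ?_ h83_choose_le
    · rw [hq2]; exact Nat.mul_pos (Nat.mul_pos (by omega) (by omega)) (by omega)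
    · rw [hq2]
      have hnR : (n : ℝ) ≤ (H : ℝ) * ((t ^ 40 : ℕ) : ℝ) := by exact_mod_cast hn
      have h1 : (n : ℝ) * ((bT t : ℝ) / ((t ^ 40 : ℕ) : ℝ)) ≤ (H : ℝ) * bT t := by
        rw [← mul_div_assoc, div_le_iff₀ hNR]
        have := mul_le_mul_of_nonneg_right hnR (Nat.cast_nonneg (α := ℝ) (bT t))
        linarith
      have h2 := mul_le_mul_of_nonneg_right h1 (show (0 : ℝ) ≤ 100 * (ell t : ℝ) by positivity)
      refine h2.trans ?_
      push_cast
      have h3 : (0 : ℝ) ≤ (H : ℝ) * bT t * ell t := by positivity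
      nlinarith
    · rw [hq2]
      have h1 : 1 ≤ ell t * bT t := Nat.mul_pos (by omega) (by omega)
      have h2 : ell t * bT t ≤ ell t * bT t * H := Nat.le_mul_of_pos_right _ (by omega)
      nlinarith
  -- every function is bad
  have hall : (Set.univ : Set (Fin n → Fin (t ^ 40))) ⊆
      {f : Fin n → Fin (t ^ 40) | ∃ b ∈ Sf ×ˢ (Finset.univ.powersetCard (aT t)),
        f ∈ {f : Fin n → Fin (t ^ 40) | q1T t ≤ (b.1.filter fun v => f v ∈ b.2).card}} ∪
      {f : Fin n → Fin (t ^ 40) | ∃ J ∈ (Finset.univ.powersetCard (bT t)),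
        f ∈ {f : Fin n → Fin (t ^ 40) |
          q2T t H ≤ ((univ : Finset (Fin n)).filter fun v => f v ∈ J).card}} := by
    intro f _
    by_cases h1 : ∀ S ∈ Sf, ∀ J : Finset (Fin (t ^ 40)), J.card ≤ aT t →
        (S.filter fun v => f v ∈ J).card < q1T t
    · right
      obtain ⟨J, hJ, hJ2⟩ := hcon f h1
      obtain ⟨J', hJJ', hJ'⟩ := Finset.exists_superset_card_eq (s := J) (n := bT t) hJ
        (by rw [Fintype.card_fin]; exact h83_bT_le ht)
      refine ⟨J', Finset.mem_powersetCard.2 ⟨Finset.subset_univ _, hJ'⟩, ?_⟩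
      refine hJ2.trans (Finset.card_le_card fun v hv => ?_)
      rw [Finset.mem_filter] at hv ⊢
      exact ⟨hv.1, hJJ' hv.2⟩
    · left
      push Not at h1
      obtain ⟨S, hSm, J, hJ, hJ2⟩ := h1
      obtain ⟨J', hJJ', hJ'⟩ := Finset.exists_superset_card_eq (s := J) (n := aT t) hJ
        (by rw [Fintype.card_fin]; exact h83_aT_le ht)
      refine ⟨(S, J'), Finset.mem_product.2 ⟨hSm, Finset.mem_powersetCard.2
        ⟨Finset.subset_univ _, hJ'⟩⟩, ?_⟩
      refine hJ2.trans (Finset.card_le_card fun v hv => ?_)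
      rw [Finset.mem_filter] at hv ⊢
      exact ⟨hv.1, hJJ' hv.2⟩
  have h1 := (Set.ncard_le_ncard hall (Set.toFinite _)).trans (Set.ncard_union_le _ _)
  rw [Set.ncard_univ, Nat.card_eq_fintype_card, Fintype.card_fun, Fintype.card_fin,
    Fintype.card_fin] at h1
  have h2 := (Nat.cast_le (α := ℝ)).2 h1
  rw [Nat.cast_add, Nat.cast_pow] at h2
  have h3 : (0 : ℝ) < ((t ^ 40 : ℕ) : ℝ) ^ n := pow_pos hNR n
  linarith

end Pool.Agent.Helper73.RT
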